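import Pool.Agent.Helper18.EL.Sieve

set_option autoImplicit false

/-!
# The number of elite primes up to `x` is at most `C x log log x / (log x)^2`
-/

namespace Pool.Agent.Results.MP_2c1829_nt.EliteCount

open Finset

theorem loglog_ge {x : ℕ} (hx : 16 ≤ x) : 1 ≤ Real.log (Real.log x) := by
  have h1 : Real.log 16 ≤ Real.log x := Real.log_le_log (by norm_num) (by exact_mod_cast hx)
  have h2 : Real.log 16 = 4 * Real.log 2 := by
    rw [show (16 : ℝ) = 2 ^ 4 by norm_num, Real.log_pow]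
    norm_num
  have h3 := Real.log_two_gt_d9
  have h4 : Real.exp 1 ≤ Real.log x := by
    have := Real.exp_one_lt_d9
    linarith
  have h5 := Real.log_le_log (Real.exp_pos 1) h4
  rwa [Real.log_exp] at h5

theorem bound_large {x : ℕ} (hx : 256 ≤ x) :
    ∃ T : ℕ, 2 ^ 2 ^ (T + 3) ≤ x ∧ Real.log x ≤ 8 * 2 ^ (T + 1) ∧
      (T : ℝ) + 2 ≤ 3 * Real.log (Real.log x) := by
  set L1 := Nat.log 2 x with hL1
  set L2 := Nat.log 2 L1 with hL2
  have h8 : 8 ≤ L1 := by
    have : Nat.log 2 (2 ^ 8) ≤ Nat.log 2 x := Nat.log_mono_right (by norm_num; exact hx)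
    rwa [Nat.log_pow (by norm_num)] at this
  have h3 : 3 ≤ L2 := by
    have : Nat.log 2 (2 ^ 3) ≤ Nat.log 2 L1 := Nat.log_mono_right (by norm_num; exact h8)
    rwa [Nat.log_pow (by norm_num)] at this
  have a1 : 2 ^ L1 ≤ x := Nat.pow_log_le_self 2 (by omega)
  have a2 : x < 2 ^ (L1 + 1) := Nat.lt_pow_succ_log_self (by norm_num) x
  have b1 : 2 ^ L2 ≤ L1 := Nat.pow_log_le_self 2 (by omega)
  have b2 : L1 < 2 ^ (L2 + 1) := Nat.lt_pow_succ_log_self (by norm_num) L1
  have hx0 : (0 : ℝ) < x := by exact_mod_cast (by omega : 0 < x)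
  have hl2 := Real.log_two_gt_d9
  have hl2' := Real.log_two_lt_d9
  have hll := loglog_ge (x := x) (by omega)
  refine ⟨L2 - 3, ?_, ?_, ?_⟩
  · rw [Nat.sub_add_cancel h3]
    exact (Nat.pow_le_pow_right (by norm_num) b1).trans a1
  · have h5 : Real.log x ≤ (L1 + 1 : ℕ) * Real.log 2 := by
      rw [← Real.log_pow]
      exact Real.log_le_log hx0 (by exact_mod_cast a2.le)
    have h6 : ((L1 + 1 : ℕ) : ℝ) ≤ 2 ^ (L2 + 1) := by exact_mod_cast b2
    have h7 : (8 : ℝ) * 2 ^ (L2 - 3 + 1) = 2 ^ (L2 + 1) := by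
      have : L2 + 1 = (L2 - 3 + 1) + 3 := by omega
      rw [this, pow_add]
      norm_num
      ring
    rw [h7]
    have h9 : (0 : ℝ) ≤ ((L1 + 1 : ℕ) : ℝ) := Nat.cast_nonneg _
    nlinarith
  · have h5 : (L1 : ℝ) * Real.log 2 ≤ Real.log x := by
      rw [← Real.log_pow]
      exact Real.log_le_log (by positivity) (by exact_mod_cast a1)
    have h6 : (2 : ℝ) ^ L2 ≤ 2 * Real.log x := by
      have : (2 : ℝ) ^ L2 ≤ L1 := by exact_mod_cast b1
      have h0 : (0 : ℝ) ≤ L1 := Nat.cast_nonneg _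
      nlinarith
    have hlx : 0 < Real.log x := Real.log_pos (by exact_mod_cast (by omega : 1 < x))
    have h7 : (L2 : ℝ) * Real.log 2 ≤ Real.log 2 + Real.log (Real.log x) := by
      rw [← Real.log_pow, ← Real.log_mul (by norm_num) hlx.ne']
      exact Real.log_le_log (by positivity) h6
    have h8' : ((L2 - 3 : ℕ) : ℝ) = (L2 : ℝ) - 3 := by
      rw [Nat.cast_sub h3]
      norm_num
    rw [h8']
    nlinarith

open Pool.Agent.Helper18.EL in
theorem result : ∃ C : ℝ, ∀ x : ℕ, 16 ≤ x →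
    (({p : ℕ | p ≤ x ∧ p.Prime ∧
      ∃ M, ∀ m, M < m → ¬ IsSquare ((2 ^ 2 ^ m + 1 : ℕ) : ZMod p)}.ncard : ℕ) : ℝ) ≤
      C * x * Real.log (Real.log x) / Real.log x ^ 2 := by
  classical
  obtain ⟨C, hC, hbt⟩ := Pool.Agent.Helper67.NX2.bt_class
  refine ⟨24 * C + 256, fun x hx => ?_⟩
  have hset : {p : ℕ | p ≤ x ∧ p.Prime ∧
      ∃ M, ∀ m, M < m → ¬ IsSquare ((2 ^ 2 ^ m + 1 : ℕ) : ZMod p)} =
      (((Icc 1 x).filter Elite : Finset ℕ) : Set ℕ) := by
    ext p
    simp only [Set.mem_setOf_eq, Finset.coe_filter, Finset.mem_Icc]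
    constructor
    · rintro ⟨h1, h2, h3⟩
      exact ⟨⟨h2.one_le, h1⟩, h2, h3⟩
    · rintro ⟨⟨_, h1⟩, h2, h3⟩
      exact ⟨h1, h2, h3⟩
  rw [hset, Set.ncard_coe_finset]
  have hll := loglog_ge hx
  have hlx : 0 < Real.log x := Real.log_pos (by exact_mod_cast (by omega : 1 < x))
  have hx0 : (0 : ℝ) < x := by exact_mod_cast (by omega : 0 < x)
  rw [le_div_iff₀ (by positivity)]
  by_cases hbig : 256 ≤ x
  · obtain ⟨T, h1, h2, h3⟩ := bound_large hbig
    have h4 := all_le hC hbt (by omega : 2 ≤ x) h1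
    have h5 : C * x * ((T : ℝ) + 2) / (2 ^ (T + 1) * Real.log x) * Real.log x ^ 2 ≤
        24 * C * x * Real.log (Real.log x) := by
      have h6 : C * x * ((T : ℝ) + 2) / (2 ^ (T + 1) * Real.log x) * Real.log x ^ 2 =
          C * x * ((T : ℝ) + 2) * (Real.log x / 2 ^ (T + 1)) := by
        have := hlx.ne'
        field_simp
      rw [h6]
      have h7 : Real.log x / 2 ^ (T + 1) ≤ 8 := by
        rw [div_le_iff₀ (by positivity)]
        exact h2
      calc C * x * ((T : ℝ) + 2) * (Real.log x / 2 ^ (T + 1))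
          ≤ C * x * ((T : ℝ) + 2) * 8 := by
            refine mul_le_mul_of_nonneg_left h7 (by positivity)
        _ ≤ C * x * (3 * Real.log (Real.log x)) * 8 := by
            refine mul_le_mul_of_nonneg_right ?_ (by norm_num)
            exact mul_le_mul_of_nonneg_left h3 (by positivity)
        _ = _ := by ring
    have h8 : 0 ≤ 256 * (x : ℝ) * Real.log (Real.log x) := by positivity
    calc ((((Icc 1 x).filter Elite).card : ℕ) : ℝ) * Real.log x ^ 2
        ≤ C * x * ((T : ℝ) + 2) / (2 ^ (T + 1) * Real.log x) * Real.log x ^ 2 :=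
          mul_le_mul_of_nonneg_right h4 (by positivity)
      _ ≤ 24 * C * x * Real.log (Real.log x) := h5
      _ ≤ (24 * C + 256) * x * Real.log (Real.log x) := by linarith
  · push Not at hbig
    have h1 : (((Icc 1 x).filter Elite).card : ℝ) ≤ x := by
      have := Finset.card_filter_le (Icc 1 x) Elite
      rw [Nat.card_Icc, Nat.add_sub_cancel] at this
      exact_mod_cast this
    have h2 : Real.log x ≤ 8 := by
      have h3 : Real.log x ≤ Real.log 256 :=
        Real.log_le_log hx0 (by exact_mod_cast hbig.le)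
      have h4 : Real.log 256 = 8 * Real.log 2 := by
        rw [show (256 : ℝ) = 2 ^ 8 by norm_num, Real.log_pow]
        norm_num
      have := Real.log_two_lt_d9
      linarith
    have h5 : Real.log x ^ 2 ≤ 64 := by nlinarith
    calc ((((Icc 1 x).filter Elite).card : ℕ) : ℝ) * Real.log x ^ 2
        ≤ x * 64 := mul_le_mul h1 h5 (by positivity) hx0.le
      _ ≤ (24 * C + 256) * x * 1 := by nlinarith [mul_pos hC hx0]
      _ ≤ (24 * C + 256) * x * Real.log (Real.log x) :=
          mul_le_mul_of_nonneg_left hll (by positivity)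

end Pool.Agent.Results.MP_2c1829_nt.EliteCount
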